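import Pool.Agent.L7h82.QO.Stm

/-! # Project QO: assembly -/

set_option autoImplicit false

open MvPolynomial

namespace Pool.Agent.L7h82.QO

open Pool.Agent.L7h17.OC
open Pool.Agent.L7h32.OS (IsSplit pol)

theorem natDegree_pol (a : ℕ → ℝ) : (pol a).natDegree ≤ 8 := by
  unfold pol
  refine Polynomial.natDegree_sum_le_of_forall_le _ _ fun i hi => ?_
  exact (Polynomial.natDegree_C_mul_X_pow_le _ _).trans (by have := Finset.mem_range.1 hi; omega)

theorem natDegree_pb (b : ℕ → ℝ) : (pb b).natDegree ≤ 4 := by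
  unfold pb
  refine Polynomial.natDegree_sum_le_of_forall_le _ _ fun i hi => ?_
  exact (Polynomial.natDegree_C_mul_X_pow_le _ _).trans (by have := Finset.mem_range.1 hi; omega)

theorem fin (hT : S_TWO) (hS : S_SIG) (hI : S_INF) (hC : S_CPT) (hN : S_NSG)
    (F : MvPolynomial (Fin 3) ℝ) (a b : ℕ → ℝ) (c : ℝ) (hQ : Quad F a b c) (hns : Nonsing F) (k : ℕ)
    (hk : SplitsInto k F) : k ≤ 16 := by
  classical
  obtain ⟨D, hD⟩ := hk
  have hD' : IsSplit k F D := hD
  obtain ⟨hne, hdis, -, -, -⟩ := hD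
  obtain ⟨hc, hA, hDD, hreg⟩ := hN F a b c hQ hns
  obtain ⟨S, hScard, hSmem⟩ := hS (pol a) (pb b) c hc hA (natDegree_pol a) (natDegree_pb b) hDD
  set J : Finset (Fin k) := Finset.univ.filter (fun i => ∃ v ∈ D i, v 2 = 0) with hJ
  have hJ4 : J.card ≤ 4 := hI F a b c k D hQ hc hD' J (fun i hi => (Finset.mem_filter.1 hi).2)
  have hpc : ∀ i : Fin k, i ∈ Jᶜ → Pc (pol a) (pb b) c {p : ℝ × ℝ | ![p.1, p.2, 1] ∈ D i} := by
    intro i hi
    refine hC F a b c k D hQ hD' i fun v hv hv2 => ?_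
    exact (Finset.mem_compl.1 hi) (Finset.mem_filter.2 ⟨Finset.mem_univ _, v, hv, hv2⟩)
  have htwo : ∀ i : Fin k, i ∈ Jᶜ → ∃ p q : ℝ × ℝ, ![p.1, p.2, 1] ∈ D i ∧ ![q.1, q.2, 1] ∈ D i ∧
      p ≠ q ∧ p ∈ S ∧ q ∈ S := by
    intro i hi
    obtain ⟨p, hp, q, hq, hpq, hp0, hq0⟩ := hT (pol a) (pb b) c _ hc hreg (hpc i hi)
    have hsub := (hpc i hi).2.2.1
    exact ⟨p, q, hp, hq, hpq, hSmem p (hsub hp) hp0, hSmem q (hsub hq) hq0⟩
  choose! p q hp hq hpq hpS hqS using htwo
  have hinj : (Jᶜ ×ˢ (Finset.univ : Finset Bool)).card ≤ S.card := by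
    refine Finset.card_le_card_of_injOn (fun x => if x.2 then p x.1 else q x.1) ?_ ?_
    · rintro ⟨i, t⟩ hx
      have hi : i ∈ Jᶜ := (Finset.mem_product.1 (Finset.mem_coe.1 hx)).1
      cases t
      · exact Finset.mem_coe.2 (by simpa using hqS i hi)
      · exact Finset.mem_coe.2 (by simpa using hpS i hi)
    · rintro ⟨i, t⟩ hx ⟨j, s⟩ hy hxy
      have hi : i ∈ Jᶜ := (Finset.mem_product.1 (Finset.mem_coe.1 hx)).1
      have hj : j ∈ Jᶜ := (Finset.mem_product.1 (Finset.mem_coe.1 hy)).1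
      have hij : i = j := by
        by_contra hne'
        have hd := hdis i j hne'
        cases t <;> cases s <;> simp only [if_true, if_false, Bool.false_eq_true] at hxy
        · exact Set.disjoint_left.1 hd (hq i hi) (by rw [hxy]; exact hq j hj)
        · exact Set.disjoint_left.1 hd (hq i hi) (by rw [hxy]; exact hp j hj)
        · exact Set.disjoint_left.1 hd (hp i hi) (by rw [hxy]; exact hq j hj)
        · exact Set.disjoint_left.1 hd (hp i hi) (by rw [hxy]; exact hp j hj)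
      subst hij
      cases t <;> cases s <;> simp only [if_true, if_false, Bool.false_eq_true] at hxy
      · rfl
      · exact absurd hxy.symm (hpq i hi)
      · exact absurd hxy (hpq i hi)
      · rfl
  rw [Finset.card_product, Finset.card_univ, Fintype.card_bool] at hinj
  have hcard : J.card + Jᶜ.card = k := by
    rw [Finset.card_add_card_compl, Fintype.card_fin]
  omega

end Pool.Agent.L7h82.QO
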