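import Pool.Agent.L7h32.OS.Stm

/-!
# Project QO (MP_b7f146_ag): real plane octics `c y^8 + B(x,z) y^4 + A(x,z)`

Such a nonsingular octic (in some real projective coordinates; these are the octics with the complex
symmetry `y ↦ i y`) has at most 16 ovals. Idea: with `z = 1` every compact piece contains two points with
`F_y = 0` (its leftmost and its rightmost points), and there are at most 24 such points.
-/

set_option autoImplicit false

open MvPolynomial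

namespace Pool.Agent.L7h82.QO

open Pool.Agent.L7h17.OC
open Pool.Agent.L7h32.OS (IsSplit pol)

/-- the affine equation -/
noncomputable def f (A B : Polynomial ℝ) (c : ℝ) (p : ℝ × ℝ) : ℝ :=
  c * p.2 ^ 8 + B.eval p.1 * p.2 ^ 4 + A.eval p.1

/-- the affine curve -/
def Z (A B : Polynomial ℝ) (c : ℝ) : Set (ℝ × ℝ) := {p | f A B c p = 0}

/-- the derivative in `x` -/
noncomputable def fx (A B : Polynomial ℝ) (p : ℝ × ℝ) : ℝ :=
  B.derivative.eval p.1 * p.2 ^ 4 + A.derivative.eval p.1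

/-- a quarter of the derivative in `y` -/
noncomputable def fy (B : Polynomial ℝ) (c : ℝ) (p : ℝ × ℝ) : ℝ :=
  p.2 ^ 3 * (2 * c * p.2 ^ 4 + B.eval p.1)

/-- the affine curve has no singular point -/
def Reg (A B : Polynomial ℝ) (c : ℝ) : Prop := ∀ p ∈ Z A B c, ¬ (fx A B p = 0 ∧ fy B c p = 0)

/-- `K` is a nonempty compact piece of the affine curve (its complement in the curve is closed) -/
def Pc (A B : Polynomial ℝ) (c : ℝ) (K : Set (ℝ × ℝ)) : Prop :=
  K.Nonempty ∧ IsCompact K ∧ K ⊆ Z A B c ∧ IsClosed (Z A B c \ K)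

/-- the polynomial with the coefficients `b 0, ..., b 4` -/
noncomputable def pb (b : ℕ → ℝ) : Polynomial ℝ :=
  ∑ i ∈ Finset.range 5, Polynomial.C (b i) * Polynomial.X ^ i

/-- `F = c y^8 + B(x,z) y^4 + A(x,z)` -/
def Quad (F : MvPolynomial (Fin 3) ℝ) (a b : ℕ → ℝ) (c : ℝ) : Prop :=
  F = C c * X 1 ^ 8 + (∑ i ∈ Finset.range 5, C (b i) * X 0 ^ i * X 2 ^ (4 - i)) * X 1 ^ 4 +
    ∑ i ∈ Finset.range 9, C (a i) * X 0 ^ i * X 2 ^ (8 - i)

/-- [LOC] 60 lines. Local continuation of a piece; same proof as `Pool.Agent.L7h29.OS.s_LOC` (Pool/Agent/L7h29/OS/Loc.lean):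
if the derivative in `y` (it is `4 * fy`) is not zero at `p` then there are `y₁ < p.2 < y₂` near `p.2` where `f (p.1, ·)` has
different signs, for `x` near `p.1` the signs at `y₁`, `y₂` are the same, so there is a zero in between; it is in
`K` because `Z \ K` is closed and does not contain `p`. Second half: the same in `x`. -/
def S_LOC : Prop := ∀ (A B : Polynomial ℝ) (c : ℝ) (K : Set (ℝ × ℝ)), Pc A B c K → ∀ p ∈ K,
  (fy B c p ≠ 0 → ∀ δ : ℝ, 0 < δ → ∃ ε : ℝ, 0 < ε ∧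
    ∀ x : ℝ, |x - p.1| < ε → ∃ y : ℝ, |y - p.2| < δ ∧ (x, y) ∈ K) ∧
  (fx A B p ≠ 0 → ∀ δ : ℝ, 0 < δ → ∃ ε : ℝ, 0 < ε ∧
    ∀ y : ℝ, |y - p.2| < ε → ∃ x : ℝ, |x - p.1| < δ ∧ (x, y) ∈ K)

/-- [TWO] 60 lines, may assume `S_LOC`. Two points with vertical tangent. Proof: `p` a point of `K` with the largest
`x`, `q` with the smallest `x` (compact); if `fy p ≠ 0` then by [LOC] there is a point of `K` with larger `x`; the same
for `q`. If `p.1 ≠ q.1` we are done. Otherwise all points of `K` have the same `x = x₀`; then `fy p = 0`,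
so `fx p ≠ 0`, and by the second half of [LOC] for all `y` near `p.2` there is a point `(x, y) ∈ K`, `x = x₀`: the
polynomial `c y^8 + B(x₀) y^4 + A(x₀)` has infinitely many zeros, so `c = 0`. -/
def S_TWO : Prop := ∀ (A B : Polynomial ℝ) (c : ℝ) (K : Set (ℝ × ℝ)), c ≠ 0 → Reg A B c → Pc A B c K →
  ∃ p ∈ K, ∃ q ∈ K, p ≠ q ∧ fy B c p = 0 ∧ fy B c q = 0

/-- [SIG] 60 lines. The points with vertical tangent. Proof: `p.2 = 0` and `A p.1 = 0` (at most 8), or `2 c y^4 + B x = 0` and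
then `(B^2 - 4 c A) x = 0` (at most 8 values of `x`, each with `y = ± sqrt (sqrt (- B x / (2 c)))`). -/
def S_SIG : Prop := ∀ (A B : Polynomial ℝ) (c : ℝ), c ≠ 0 → A ≠ 0 → A.natDegree ≤ 8 → B.natDegree ≤ 4 →
  B ^ 2 - Polynomial.C (4 * c) * A ≠ 0 →
  ∃ S : Finset (ℝ × ℝ), S.card ≤ 24 ∧ ∀ p ∈ Z A B c, fy B c p = 0 → p ∈ S

/-- [INF] 60 lines. At most four pieces have points at infinity. Proof: on `v 2 = 0` the value of `F` is
`c y^8 + b 4 x^4 y^4 + a 8 x^8`; `x ≠ 0` since `c ≠ 0`; scale to `x = 1`: `t = y` satisfies `c t^8 + b 4 t^4 + a 8 = 0`, and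
`t^4` has at most two values, `t` at most four. Different pieces have different `t` (compare
Pool/Agent/L7h56/OS/Inf.lean). -/
def S_INF : Prop := ∀ (F : MvPolynomial (Fin 3) ℝ) (a b : ℕ → ℝ) (c : ℝ) (k : ℕ)
  (C : Fin k → Set (Fin 3 → ℝ)), Quad F a b c → c ≠ 0 → IsSplit k F C →
  ∀ J : Finset (Fin k), (∀ i ∈ J, ∃ v ∈ C i, v 2 = 0) → J.card ≤ 4

/-- [CPT] 100 lines. The pieces without points at infinity are compact: copy of
Pool/Agent/L7h76/OS/Cpt.lean (only the evaluation of `F` at `(x, y, 1)` and the continuity of `f` are different). -/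
def S_CPT : Prop := ∀ (F : MvPolynomial (Fin 3) ℝ) (a b : ℕ → ℝ) (c : ℝ) (k : ℕ)
  (C : Fin k → Set (Fin 3 → ℝ)), Quad F a b c → IsSplit k F C → ∀ i, (∀ v ∈ C i, v 2 ≠ 0) →
  Pc (pol a) (pb b) c {p : ℝ × ℝ | ![p.1, p.2, 1] ∈ C i}

/-- [NSG] 100 lines. What nonsingularity says. Proof: (1) `c ≠ 0`, else `(0, 1, 0)` is singular. (2) `A ≠ 0`, else `(1, 0, 0)` is
singular. (3) `B^2 - 4 c A ≠ 0`, else (as `B^2 = 4 c A` also at complex points `(x, 1)`) at the points `(0, y, 1)` with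
`y^4 = - b 0 / (2 c)` (complex `y`) `F = c (y^4 + B / (2 c))^2` and all derivatives vanish:
`F = c y^8 + b 0 y^4 + a 0`, `∂₁F = 4 y^3 (2 c y^4 + b 0)`, `∂₀F = b 1 y^4 + a 1` with `2 b 0 b 1 = 4 c a 1`,
`∂₂F = 4 b 0 y^4 + 8 a 0` with `b 0 ^ 2 = 4 c a 0`. (4) Affine points: `∂₀F (x, y, 1) = fx`, `∂₁F (x, y, 1) = 4 fy`,
`∂₂F = 8 F - x ∂₀F - y ∂₁F` (compare Pool/Agent/L7h36/OS/Nsg.lean). -/
def S_NSG : Prop := ∀ (F : MvPolynomial (Fin 3) ℝ) (a b : ℕ → ℝ) (c : ℝ), Quad F a b c → Nonsing F →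
  c ≠ 0 ∧ pol a ≠ 0 ∧ (pb b) ^ 2 - Polynomial.C (4 * c) * pol a ≠ 0 ∧ Reg (pol a) (pb b) c

end Pool.Agent.L7h82.QO
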